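import Pool.Agent.Zk46.NP2.SVDefs
import Pool.Agent.K3h31.LP.Sieve

/-! The weighted sieve for the densities `1 / p`, `p ∤ M`, with the remainder as a sum over the moduli (module SV). -/

set_option autoImplicit false

namespace Pool.Agent.Zk46.NP2

open Finset Filter
open Pool.Agent.W23.DC
open Pool.Agent.Y882
open Pool.Agent.Y882.PX
open Pool.Agent.Y882.KW
open Pool.Agent.K3h31.LP

open Classical in
theorem sv_main : S_SV := by
  intro M hM0 τ ζ υ lam τ' hζ h2 h4 hτ hζυ hυτ hlam hJ0 h5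
  have hυ0 : 0 < υ := by linarith
  obtain ⟨ε₁, η, f, hε₁, hε₁ζ, hε₁β, hη, hf, Y1, HC⟩ :=
    core3 1 τ ζ υ lam (lam / υ) τ' 1 hζ h2 h4 hτ hζυ hυτ hlam.le (by positivity)
      (by rw [div_mul_cancel₀ _ hυ0.ne']) hJ0 h5 one_pos
  obtain ⟨Y2, HM⟩ := mer_inv ε₁ υ η hε₁ (by linarith) hη
  obtain ⟨c0, hc0, HP⟩ := Pool.Agent.K3h31.LP.prod_low
  have ev1 : ∀ᶠ Y : ℕ in atTop, (M : ℝ) + 1 ≤ (Y : ℝ) ^ ε₁ :=
    ((tendsto_rpow_atTop hε₁).comp tendsto_natCast_atTop_atTop).eventually_ge_atTop _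
  obtain ⟨Y3, hY3'⟩ := eventually_atTop.1 ev1
  refine ⟨f * c0, by positivity, max (max Y1 Y2) (max Y3 3), fun Y hY => ?_⟩
  have hY1 : Y1 ≤ Y := ((le_max_left _ _).trans (le_max_left _ _)).trans hY
  have hY2 : Y2 ≤ Y := ((le_max_right _ _).trans (le_max_left _ _)).trans hY
  have hY3 : 3 ≤ Y := ((le_max_right _ _).trans (le_max_right _ _)).trans hY
  have hYM : (M : ℝ) + 1 ≤ (Y : ℝ) ^ ε₁ := hY3' Y (((le_max_left _ _).trans (le_max_right _ _)).trans hY)
  obtain ⟨c, hcL, hcD, hcN, hcV⟩ := HC Y hY1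
  intro ι J a hcop
  set h : ℕ → ℝ := fun p => if p ∣ M then 0 else 1 / (p : ℝ) with hh
  have hPZ : ∀ w : ℝ, ∀ p ∈ PZ Y w, p.Prime ∧ p ≤ Y := by
    intro w p hp
    unfold PZ at hp
    rw [mem_filter, mem_Icc] at hp
    exact ⟨hp.2.1, hp.1.2⟩
  have hJr : (0 : ℝ) ≤ J.card := Nat.cast_nonneg _
  have hlY : 0 < Real.log Y := by
    apply Real.log_pos
    have : (3 : ℝ) ≤ Y := by exact_mod_cast hY3
    linarith
  have hh01 : ∀ p : ℕ, p.Prime → 0 ≤ h p ∧ h p ≤ 1 / p := by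
    intro p hp
    simp only [hh]
    split_ifs
    · exact ⟨le_rfl, by positivity⟩
    · exact ⟨by positivity, le_rfl⟩
  have hinv1 : ∀ p : ℕ, p.Prime → 1 / (p : ℝ) ≤ 1 := by
    intro p hp
    have hp2 : (2 : ℝ) ≤ p := by exact_mod_cast hp.two_le
    rw [div_le_one (by linarith)]
    linarith
  have hmer : Mer (pr Y ε₁ υ) (tt Y) h ε₁ υ η := by
    have h1 := HM Y hY2 (fun p => 1 / (p : ℝ)) (fun p _ _ => rfl)
    intro x y hx hxy hy
    have h2 := h1 x y hx hxy hy
    have h3 : ∑ p ∈ (pr Y ε₁ υ).filter (fun p => x ≤ tt Y p ∧ tt Y p < y), h p =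
        ∑ p ∈ (pr Y ε₁ υ).filter (fun p => x ≤ tt Y p ∧ tt Y p < y), 1 / (p : ℝ) := by
      apply sum_congr rfl
      intro p hp
      obtain ⟨g1, g2, g3, g4⟩ := pr_facts (by omega) (mem_filter.1 hp).1
      simp only [hh]
      rw [if_neg]
      intro hd
      have h6 : p ≤ M := Nat.le_of_dvd (Nat.pos_of_ne_zero hM0) hd
      have h7 : (p : ℝ) ≤ M := by exact_mod_cast h6
      linarith
    rw [h3]
    exact h2
  have hmain := hcV h (fun p hp => (hh01 p (hPZ υ p hp).1).1)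
    (fun p hp => ((hh01 p (hPZ ε₁ p hp).1).2).trans (hinv1 p (hPZ ε₁ p hp).1)) (by
    intro p hp _
    have hp2 : (2 : ℝ) ≤ p := by exact_mod_cast (hPZ ε₁ p hp).1.two_le
    refine ((hh01 p (hPZ ε₁ p hp).1).2).trans ?_
    push_cast
    apply one_div_le_one_div_of_le (by linarith)
    linarith) hmer
  have hlow : c0 / Real.log Y ≤ ∏ p ∈ PZ Y ε₁, (1 - h p) := by
    refine (HP Y hY3 (PZ Y ε₁) ?_).trans ?_
    · intro p hp
      rw [mem_filter, mem_Icc]
      exact ⟨⟨(hPZ ε₁ p hp).1.one_le, (hPZ ε₁ p hp).2⟩, (hPZ ε₁ p hp).1⟩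
    · apply Finset.prod_le_prod
      · intro p hp
        have := hinv1 p (hPZ ε₁ p hp).1
        linarith
      · intro p hp
        have := (hh01 p (hPZ ε₁ p hp).1).2
        linarith
  have hmain' : f * (c0 / Real.log Y) ≤ VV (PZ Y υ) c h :=
    (mul_le_mul_of_nonneg_left hlow hf.le).trans hmain
  -- the sieve inequality
  set R : ℝ := ∑ T ∈ (PZ Y υ).powerset, c T * (((J.filter (fun j => ∏ p ∈ T, p ∣ a j)).card : ℝ) -
          J.card * ∏ p ∈ T, h p) with hR
  have hs : (J.card : ℝ) * VV (PZ Y υ) c h + R ≤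
      ((J.filter (fun j => 0 < WW Y ζ υ lam (lam / υ) (a j))).card : ℝ) := by
    have h6 : (J.card : ℝ) * VV (PZ Y υ) c h + R =
      ∑ T ∈ (PZ Y υ).powerset, c T * ((J.filter (fun j => ∏ p ∈ T, p ∣ a j)).card : ℝ) := by
      unfold VV
      rw [hR, mul_sum, ← sum_add_distrib]
      apply sum_congr rfl
      intro T _
      ring
    have h7 : ∑ T ∈ (PZ Y υ).powerset, c T * ((J.filter (fun j => ∏ p ∈ T, p ∣ a j)).card : ℝ) =
        ∑ j ∈ J, VV (PZ Y υ) c (fun p => if p ∣ a j then 1 else 0) := by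
      unfold VV
      rw [sum_comm]
      apply sum_congr rfl
      intro T hT
      rw [mem_powerset] at hT
      rw [card_filter]
      push_cast
      rw [mul_sum]
      apply sum_congr rfl
      intro j _
      rw [Pool.Agent.Y882.PX.prod_ind T (fun p hp => (hPZ υ p (hT hp)).1)]
    rw [h6, h7, card_filter]
    push_cast
    apply sum_le_sum
    intro j _
    refine (hcN (a j)).trans ?_
    split_ifs with h
    · exact WW_le_one Y ζ υ lam (lam / υ) (by positivity) (by rw [div_mul_cancel₀ _ hυ0.ne']) (a j)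
    · exact not_lt.1 h
  -- the remainder
  set g : ℕ → ℝ := fun q => |((J.filter (fun i => q ∣ a i)).card : ℝ) - J.card / q| with hg
  set 𝒯 := (PZ Y υ).powerset.filter (fun T => c T ≠ 0 ∧ ∀ p ∈ T, ¬ p ∣ M) with h𝒯
  have hprime : ∀ T ∈ (PZ Y υ).powerset, ∀ p ∈ T, p.Prime := by
    intro T hT p hp
    rw [mem_powerset] at hT
    exact (hPZ υ p (hT hp)).1
  have hRb : |R| ≤ ∑ T ∈ 𝒯, 5 * Real.log Y * g (∏ p ∈ T, p) := by
    rw [hR, h𝒯, sum_filter]
    refine (abs_sum_le_sum_abs _ _).trans (sum_le_sum fun T hT => ?_)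
    have hpT := hprime T hT
    split_ifs with hc
    · rw [abs_mul]
      have e1 : (J.card : ℝ) * ∏ p ∈ T, h p = J.card / ((∏ p ∈ T, p : ℕ) : ℝ) := by
        push_cast
        rw [prod_congr rfl (g := fun p : ℕ => 1 / (p : ℝ))]
        · rw [prod_div_distrib, prod_const_one]
          ring
        · intro p hp
          simp only [hh]
          rw [if_neg (hc.2 p hp)]
      rw [e1]
      exact mul_le_mul_of_nonneg_right (hcL T) (abs_nonneg _)
    · by_cases h0 : c T = 0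
      · rw [h0, zero_mul, abs_zero]
      · have h6 : ∃ p ∈ T, p ∣ M := by
          by_contra hcon
          push Not at hcon
          exact hc ⟨h0, hcon⟩
        obtain ⟨p, hp, hpM⟩ := h6
        have e1 : ∏ p ∈ T, h p = 0 := by
          apply prod_eq_zero hp
          simp only [hh]
          rw [if_pos hpM]
        have e2 : J.filter (fun j => ∏ p ∈ T, p ∣ a j) = ∅ := by
          apply filter_eq_empty_iff.2
          intro j hj hd
          have h7 : p ∣ a j := (dvd_prod_of_mem _ hp).trans hd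
          have h8 := Nat.dvd_gcd h7 hpM
          rw [hcop j hj] at h8
          exact (hpT p hp).one_lt.ne' (Nat.dvd_one.1 h8)
        rw [e1, e2]
        simp
  have hinj : Set.InjOn (fun T : Finset ℕ => ∏ p ∈ T, p) (𝒯 : Set (Finset ℕ)) := by
    intro T hT T' hT' he
    rw [mem_coe, h𝒯, mem_filter] at hT hT'
    have e1 := Nat.primeFactors_prod (hprime T hT.1)
    have e2 := Nat.primeFactors_prod (hprime T' hT'.1)
    simp only at he
    rw [← e1, ← e2, he]
  have hsum : ∑ T ∈ 𝒯, g (∏ p ∈ T, p) ≤ ∑ q ∈ (Icc 1 ⌊(Y : ℝ) ^ τ'⌋₊).filter (fun q => q.Coprime M), g q := by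
    rw [← sum_image (f := g) (g := fun T : Finset ℕ => ∏ p ∈ T, p) hinj]
    apply sum_le_sum_of_subset_of_nonneg
    · intro q hq
      rw [mem_image] at hq
      obtain ⟨T, hT, rfl⟩ := hq
      rw [h𝒯, mem_filter, mem_powerset] at hT
      obtain ⟨hT1, hT2, hT3⟩ := hT
      have hpT := hprime T (mem_powerset.2 hT1)
      rw [mem_filter, mem_Icc]
      refine ⟨⟨?_, ?_⟩, ?_⟩
      · exact Nat.one_le_iff_ne_zero.2 (prod_ne_zero_iff.2 fun p hp => (hpT p hp).ne_zero)
      · exact Nat.le_floor (hcD T hT1 hT2)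
      · apply Nat.Coprime.prod_left
        intro p hp
        exact (Nat.Prime.coprime_iff_not_dvd (hpT p hp)).2 (hT3 p hp)
    · intro q _ _
      exact abs_nonneg _
  have hR2 : |R| ≤ 5 * Real.log Y * ∑ q ∈ (Icc 1 ⌊(Y : ℝ) ^ τ'⌋₊).filter (fun q => q.Coprime M), g q := by
    refine hRb.trans ?_
    rw [← mul_sum]
    exact mul_le_mul_of_nonneg_left hsum (by positivity)
  have hm1 := mul_le_mul_of_nonneg_left hmain' hJr
  have e1 : f * c0 * J.card / Real.log Y = (J.card : ℝ) * (f * (c0 / Real.log Y)) := by ring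
  have hR3 := neg_le_of_abs_le hR2
  rw [e1]
  linarith

end Pool.Agent.Zk46.NP2
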