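import Pool.Agent.Y882.KW.Alm

/-! The weighted sieve module for near-palindromes with at most two prime factors (helper46). -/

set_option autoImplicit false

namespace Pool.Agent.Zk46.NP2

open Finset

open Classical in
/-- module SV (model: `K3h31/LP/Sieve.lean`, theorem `lower`, with the densities `h p = 1 / p` for the primes `p ∤ M` and
`h p = 0` for `p ∣ M`, and with the remainder estimated by `|c T| ≤ 5 log Y` and `q = ∏ p ∈ T, p ≤ Y ^ τ'`; if some `p ∈ T`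
divides `M` then the remainder of `T` is `0 - 0`, as the `v i` are coprime to `M`). -/
def S_SV : Prop := ∀ M : ℕ, M ≠ 0 → ∀ τ ζ υ lam τ' : ℝ, 0 < ζ → 2 * ζ < τ → τ ≤ 4 * ζ → τ ≤ 1 → ζ ≤ υ → υ < τ → 0 < lam →
  (∫ x in ζ..υ, (lam - lam / υ * x) / (τ - x) / x < Real.log (τ / ζ - 1) / τ) → τ < τ' →
  ∃ δ : ℝ, 0 < δ ∧ ∃ Y0 : ℕ, ∀ Y : ℕ, Y0 ≤ Y → ∀ (ι : Type) (S : Finset ι) (v : ι → ℕ), (∀ i ∈ S, (v i).Coprime M) →
    δ * S.card / Real.log Y - 5 * Real.log Y * ∑ q ∈ (Icc 1 ⌊(Y : ℝ) ^ τ'⌋₊).filter (fun q => q.Coprime M),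
      |((S.filter (fun i => q ∣ v i)).card : ℝ) - S.card / q| ≤
    ((S.filter (fun i => 0 < Pool.Agent.Y882.KW.WW Y ζ υ lam (lam / υ) (v i))).card : ℝ)

end Pool.Agent.Zk46.NP2
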