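import Mathlib
import Pool.Agent.W89.PW.Defs

/-!
# Near-palindromes with at most two prime factors (helper46): definitions and modules

The numbers `pv b L m` have the `2 L + 3` base-`b` digits `1, d_{L-1}, …, d_0, 1, d_0 + 2 e_0, …, d_{L-1} + 2 e_{L-1}, 1`
(from the left), where `0 ≤ d_c < s_c = b + 2 - 2 t_c` and `0 ≤ e_c < t_c`.  So `d_c + 2 e_c ≤ b - 1`, there are no carries,
and the mirrored digits number `L + c + 2` and `L - c` differ by at most `2 (t_c - 1)`.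

The normalised exponential sum of the pair number `c` is `fa b t L c α = ph s_c (fr α) * ph t_c (lo α)`; its Fejér majorant
has mean value at most `CC b / (b t_c)`.  `ph`, `pts`, `apts` are those of `Pool.Agent.H39R3.PB`, `EM` is that of
`Pool.Agent.H39R3.PS`, `fr b L c = b ^ (L + c + 2) + b ^ (L - c)` is that of `Pool.Agent.W89.PW`.
-/

set_option autoImplicit false

namespace Pool.Agent.Zk46.NP2

open Finset Filter Topology Pool.Agent.Helper112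
open Pool.Agent.H39R3.PB (ph pts apts)
open Pool.Agent.H39R3.PS (EM)
open Pool.Agent.W89.PW (fr)

/-- the frequency of `e_c` -/
def lo (b L c : ℕ) : ℕ := 2 * b ^ (L - c)

/-- the number of the `d_c` -/
def sz (b : ℕ) (t : ℕ → ℕ) (c : ℕ) : ℕ := b + 2 - 2 * t c

/-- the normalised exponential sum of the pair number `c` -/
noncomputable def fa (b : ℕ) (t : ℕ → ℕ) (L c : ℕ) (α : ℝ) : ℝ :=
  ph (sz b t c) (fr b L c * α) * ph (t c) (lo b L c * α)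

/-- the product over the pairs `c < J` -/
noncomputable def Fn (b : ℕ) (t : ℕ → ℕ) (L J : ℕ) (α : ℝ) : ℝ := ∏ c ∈ range J, fa b t L c α

/-- the number of the digit vectors -/
noncomputable def XX (b : ℕ) (t : ℕ → ℕ) (L : ℕ) : ℝ := ∏ c ∈ range L, ((sz b t c : ℝ) * t c)

/-- the loss of the majorants, squared -/
noncomputable def CC (b : ℕ) : ℝ := 8192 * (1 + Real.log b) ^ 2

/-- the basic condition on the `t_c` -/
def Ok (b : ℕ) (t : ℕ → ℕ) : Prop := ∀ c, 1 ≤ t c ∧ 4 * t c ≤ b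

/-- the admissible `t` -/
structure Adm (b : ℕ) (η τ K : ℝ) (L : ℕ) (t : ℕ → ℕ) : Prop where
  ok : Ok b t
  central : ∀ J ≤ L, (b : ℝ) ^ (η * J) ≤ K * ∏ c ∈ range J, (t c : ℝ)
  total : (b : ℝ) ^ (τ * L) ≤ K * ∏ c ∈ range L, (t c : ℝ)

/-- the conditions on the parameters -/
structure Par (b : ℕ) (η τ κ K : ℝ) : Prop where
  b64 : 64 ≤ b
  eta : 0 < η
  tau : 0 < τ
  tau1 : τ ≤ 1
  kap : 0 < κ
  K1 : 1 ≤ K
  two : 2 < (b : ℝ) ^ η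
  sq : CC b ^ 2 ≤ b
  lev : (b : ℝ) ^ κ * CC b < (b : ℝ) ^ (1 + τ)

/-- the digit vectors, `(m c).1 = d_c`, `(m c).2 = e_c` -/
def digs (b : ℕ) (t : ℕ → ℕ) (L : ℕ) : Finset (Fin L → ℕ × ℕ) :=
  Fintype.piFinset fun c => range (sz b t c) ×ˢ range (t c)

/-- the number with the digit vector `m` -/
def pv (b L : ℕ) (m : Fin L → ℕ × ℕ) : ℕ :=
  b ^ (2 * L + 2) + b ^ (L + 1) + 1 + ∑ c : Fin L, ((m c).1 * fr b L c + (m c).2 * lo b L c)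

/-- number of digit vectors with `q ∣ pv` -/
noncomputable def cnt (b : ℕ) (t : ℕ → ℕ) (L q : ℕ) : ℝ := ((digs b t L).filter fun m => q ∣ pv b L m).card

/-! ### modules -/

/-- module MEAN (models: `W139/PW/A1.lean`, `W139/PW/B1.lean`, `W139/PX/D1.lean`; the Fejér majorant of `ph s` is
`Pool.Agent.W139.PX.majUnif`, for `s ≥ 64`; for `s < 64` the majorant `1 = ph 1 ^ 2`).  The means of the products over
any set `B` of pairs. -/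
def S_MEAN : Prop := ∀ (b : ℕ) (t : ℕ → ℕ), 4 ≤ b → Ok b t → ∀ (L : ℕ) (T : ℝ) (B : Finset ℕ), B ⊆ range L →
  (∀ n : ℕ, 1 ≤ n → n ≤ b ^ (2 * L + 3) → (n.divisors.card : ℝ) ≤ T) →
  (∀ Q : ℕ, pts b Q (fun α => ∏ c ∈ B, fa b t L c α) ≤ 2 * Q * (Q * ∏ c ∈ B, (CC b / (b * t c)) + T)) ∧
  (∀ P : ℕ, 1 ≤ P → ∑ m ∈ (Ico P (2 * P)).filter (fun m => m.Coprime (2 * b)),
    EM (m ^ 2) (fun α => ∏ c ∈ B, fa b t L c α) ≤ P * ∏ c ∈ B, (CC b / (b * t c)) + T)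

/-- module LS (models: `W342/PW2.lean`, `W139/PW/A2.lean`): second moments of the product over the central pairs `c < J`,
by the large sieve inequality (after rescaling `α → b ^ (L - J) α`, so that the frequencies are below `b ^ (2 J + 2)`). -/
def S_LS : Prop := ∀ (b : ℕ) (t : ℕ → ℕ), 4 ≤ b → Ok b t → ∀ L J : ℕ, J ≤ L →
  (∀ Q : ℕ, 1 ≤ Q → b ^ J ≤ b * Q → pts b Q (fun α => Fn b t L J α ^ 2) ≤
    12 * ((b : ℝ) ^ 5 + 4) * (Q : ℝ) ^ 2 * ∏ c ∈ range J, (1 / ((sz b t c : ℝ) * t c))) ∧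
  (∀ M : ℕ, b ^ (2 * J + 3) ≤ M → M.Coprime b →
    EM M (fun α => Fn b t L J α ^ 2) ≤ ∏ c ∈ range J, (1 / ((sz b t c : ℝ) * t c)))

/-- the bound for the sum over the fractions with denominators `Q ≤ q < 2 Q`, uniformly in the `t` with `P L t` -/
def BigP (b : ℕ) (κ : ℝ) (P : ℕ → (ℕ → ℕ) → Prop) : Prop := ∃ C δ : ℝ, 0 < C ∧ 0 < δ ∧ δ < 1 ∧
  ∀ (L : ℕ) (t : ℕ → ℕ), P L t → ∀ Q : ℕ, 1 ≤ Q → (Q : ℝ) ≤ (b : ℝ) ^ (κ * L) →
    pts b Q (Fn b t L L) ≤ C * (Q : ℝ) ^ (1 - δ)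

/-- module BIG (model: `W139/PX/D2.lean`, `split'`, `big'`, `bigW_of_majP`).

Proof. `ρ > 0` with `b ^ (-ρ) = b ^ (κ - 1 - τ) CC b`; `b ^ (-γ) = 2 b ^ (-η)`; `k ≥ 2 / ρ + 1`; `η'` with
`(k + 1) η' ≤ min γ (ρ / κ)`; `J' = log_b Q + 1`, `J = min L J'`, `M = min L (4 J')`, blocks of length `J / k + 1`,
`λ = Q ^ (-η')`.  As in `split'`, `F_M ≤ ∑_{i<k} λ ∏_{c ∈ SS M J (J/k+1) i} fa + λ ^ (-k) F_J ^ 2`.  The first sum by MEAN
(`SS` has at least `2 J'` elements if `M = 4 J'`, and `CC b / b ≤ b ^ (-1/2)`, so `Q ∏ ≤ 1`; if `M = L` then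
`Q ∏ ≤ K b ^ (-ρ L) b ^ (2 (L / k + 1)) ≤ K b ^ 2`, as `1 / b ^ 2 ≤ CC b / (b t_c)`), the second by LS
(`s_c ≥ b / 2`; if `J = J'` then `∏ 1/(s_c t_c) ≤ K (2 b ^ (-η)) ^ J' b ^ (-J')`, if `J = L` then
`Q ∏ 1/(s_c t_c) ≤ K b ^ (-ρ L) ≤ K Q ^ (-ρ/κ)`). -/
def S_BIG : Prop := ∀ (b : ℕ) (η τ κ K : ℝ), Par b η τ κ K → BigP b κ (Adm b η τ K)

/-- pointwise bound for one denominator -/
def PtN (b : ℕ) : Prop := ∃ κ : ℝ, 0 < κ ∧ κ < 1 ∧ ∀ t : ℕ → ℕ, Ok b t → ∀ q h a L : ℕ, 1 < q → q.Coprime (2 * b) →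
  a.Coprime q → q < b ^ h → Fn b t L L ((a : ℝ) / q) ≤ (1 - κ) ^ (L / (2 * h + 2))

/-- module PT (model: `W571/PW/Pt.lean`; `fa ≤ ph s_c (fr α)`) -/
def S_PT : Prop := ∀ b : ℕ, 4 ≤ b → PtN b

/-- module BV (models: `W261/PW_BV.lean`, `W139/PX/D4.lean`): level of distribution, uniformly in the `t` with `P L t` -/
def S_BV : Prop := ∀ (b : ℕ) (κ : ℝ) (P : ℕ → (ℕ → ℕ) → Prop), 4 ≤ b → 0 < κ → κ ≤ 2 → (∀ L t, P L t → Ok b t) →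
  PtN b → BigP b κ P → ∀ A : ℕ, ∃ L0 : ℕ, ∀ L : ℕ, L0 ≤ L → ∀ t, P L t →
    ∑ q ∈ (Icc 1 ⌊(b : ℝ) ^ (κ * L)⌋₊).filter (fun q => q.Coprime (2 * b)), |cnt b t L q - XX b t L / q| ≤
      XX b t L / (L : ℝ) ^ A

open Classical in
/-- module SQ (model: `W139/PX/D3.lean`): the squares of large integers divide few of the numbers.

Proof as for BIG, with the second parts of MEAN and LS: for `P ≤ m < 2 P`, `b ^ (J + 2) ≤ P`, `J ≤ L`, and `P ≤ b ^ (J + 3)` or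
`J = L`; `λ = b ^ (-η' L)`. -/
def S_SQ : Prop := ∀ (b : ℕ) (η τ κ K : ℝ), Par b η τ κ K → ∀ θ : ℝ, 0 < θ → ∀ A : ℕ, ∃ L0 : ℕ, ∀ L : ℕ, L0 ≤ L →
  ∀ t, Adm b η τ K L t → (((digs b t L).filter (fun m => ∃ p : ℕ, p.Coprime (2 * b) ∧ (b : ℝ) ^ (θ * L) ≤ p ∧
    (p : ℝ) ≤ (b : ℝ) ^ (κ * L) ∧ p ^ 2 ∣ pv b L m)).card : ℝ) ≤ XX b t L / (L : ℝ) ^ A

/-- module DIG: the digits -/
def S_DIG : Prop := ∀ (b : ℕ) (t : ℕ → ℕ) (L : ℕ), 4 ≤ b → Ok b t → ∀ m ∈ digs b t L,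
  b ^ (2 * L + 2) ≤ pv b L m ∧ pv b L m < b ^ (2 * L + 3) ∧ (pv b L m).Coprime (2 * b) ∧
    ∀ c : Fin L, pv b L m / b ^ (L + c + 2) % b = (m c).1 ∧ pv b L m / b ^ (L - c) % b = (m c).1 + 2 * (m c).2

end Pool.Agent.Zk46.NP2
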