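import Pool.Agent.Zk46.NP2.Fin
import Pool.Agent.Zk46.NP2.SV
import Pool.Agent.Zk59.NP2.Mean
import Pool.Agent.Zk85.NP2.LS
import Pool.Agent.Zk67.NP2.BIG
import Pool.Agent.Zk20.NP2.Pt
import Pool.Agent.Zk20.NP2.Dig
import Pool.Agent.Zk5.NP2.BV
import Pool.Agent.Zk40.NP2.SQ

/-!
# Near-palindromes with at most two prime factors: all modules together

Modules: MEAN (helper59), LS (helper85), BIG (helper67), PT and DIG (helper20), BV (helper5), SQ (helper40), SV (helper46).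
-/

set_option autoImplicit false

namespace Pool.Agent.Zk46.NP2

theorem all : S_FIN :=
  fin_of (Pool.Agent.Zk67.NP2.BIG.thm Pool.Agent.Zk59.NP2.thm Pool.Agent.Zk85.NP2.thm) Pool.Agent.Zk20.NP2.t_PT
    Pool.Agent.Zk5.NP2.thm_BV (Pool.Agent.Zk40.NP2.thm Pool.Agent.Zk59.NP2.thm Pool.Agent.Zk85.NP2.thm)
    Pool.Agent.Zk20.NP2.t_DIG sv_main

end Pool.Agent.Zk46.NP2
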