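import Pool.Agent.Zk46.NP2.Defs
import Pool.Agent.Zk46.NP2.SVDefs
import Pool.Agent.K3h19.RV.Num

/-!
# Near-palindromes with at most two prime factors: assembly of the modules
-/

set_option autoImplicit false

namespace Pool.Agent.Zk46.NP2

open Finset Filter Topology
open Pool.Agent.W23.DC (tt pr)
open Pool.Agent.Y882.KW (WW almost)

lemma XX_eq (b : ℕ) (t : ℕ → ℕ) (L : ℕ) : XX b t L = ((digs b t L).card : ℝ) := by
  unfold XX digs
  rw [Fintype.card_piFinset]
  push_cast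
  rw [← Fin.prod_univ_eq_prod_range (fun c => ((sz b t c : ℝ) * t c)) L]
  apply prod_congr rfl
  intro c _
  rw [card_product, card_range, card_range]
  push_cast
  rfl

lemma sz_pos {b : ℕ} {t : ℕ → ℕ} (h : Ok b t) (c : ℕ) : 1 ≤ sz b t c := by
  have := h c
  unfold sz
  omega

lemma XX_pos {b : ℕ} {t : ℕ → ℕ} (h : Ok b t) (L : ℕ) : 0 < XX b t L := by
  apply prod_pos
  intro c _
  have h1 : 0 < sz b t c := sz_pos h c
  have h2 : 0 < t c := (h c).1
  positivity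

open Classical in
/-- assembly -/
theorem main (hBIG : S_BIG) (hPT : S_PT) (hBV : S_BV) (hSQ : S_SQ) (hDIG : S_DIG) (hSV : S_SV) {b : ℕ}
    {η τ κ K : ℝ} (hP : Par b η τ κ K) (hκ : 12 / 11 < κ) (hκ2 : κ ≤ 2) :
    ∃ c : ℝ, 0 < c ∧ ∃ L0 : ℕ, ∀ L : ℕ, L0 ≤ L → ∀ t, Adm b η τ K L t →
      ∃ G : Finset (Fin L → ℕ × ℕ), G ⊆ digs b t L ∧ c * XX b t L / L ≤ G.card ∧ ∀ m ∈ G,
        (pv b L m).primeFactorsList.length ≤ 2 ∧ ∀ p : ℕ, p.Prime → p ∣ pv b L m → pv b L m < p ^ 8 := by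
  have hb64 := hP.b64
  have hb4 : 4 ≤ b := by omega
  have hbR : (64 : ℝ) ≤ b := by exact_mod_cast hb64
  have hb0 : (0 : ℝ) < b := by linarith
  have hb1 : (1 : ℝ) < b := by linarith
  have hb1' : (1 : ℝ) ≤ b := hb1.le
  have hlb : 0 < Real.log b := Real.log_pos hb1
  -- parameters of the sieve
  set ε : ℝ := (κ - 12 / 11) / 6 with hε
  have hε0 : 0 < ε := by rw [hε]; linarith
  have hκε : κ = 12 / 11 + 6 * ε := by rw [hε]; ring
  set σ : ℝ := 6 / 11 + ε with hσ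
  have hσ1 : σ ≤ 1 := by rw [hσ]; linarith
  have hσ0 : 0 < σ := by rw [hσ]; linarith
  set σ' : ℝ := 6 / 11 + 2 * ε with hσ'
  have hσσ' : σ < σ' := by rw [hσ, hσ']; linarith
  have hlam2 := Pool.Agent.K3h19.RV.lam_two
  obtain ⟨υ, lam, S, hυ1, hυ2, hlam, hS, hr, hJ⟩ := Pool.Agent.K3h19.RV.richert 2 (by norm_num) σ hσ0 (by
    have h1 : σ * (1 + 5 / 6) ≤ σ * Pool.Agent.K3h19.RV.Lam 2 := mul_le_mul_of_nonneg_left hlam2 hσ0.le
    have h2 : 1 < σ * (1 + 5 / 6) := by rw [hσ]; linarith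
    linarith)
  have hυ0 : 0 < υ := by linarith
  obtain ⟨δ, hδ, Y0, hsv⟩ := hSV (2 * b) (by omega) σ (σ / 4) υ lam σ' (by linarith) (by linarith) (by linarith)
    hσ1 hυ1 hυ2 hlam hJ hσσ'
  obtain ⟨L1, hL1⟩ := hBV b κ (Adm b η τ K) hb4 hP.kap hκ2 (fun L t h => h.ok) (hPT b hb4) (hBIG b η τ κ K hP) 4
  obtain ⟨L2, hL2⟩ := hSQ b η τ κ K hP (1 / 4) (by norm_num) 4
  set c : ℝ := δ / (10 * Real.log b) with hc
  have hc0 : 0 < c := by positivity
  obtain ⟨L3, hL3⟩ := exists_nat_ge (3 * σ' / (κ - 2 * σ') + 1)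
  obtain ⟨L4, hL4⟩ := exists_nat_ge ((26 * Real.log b + 1) / c + 1)
  refine ⟨c, hc0, max (max (max L1 L2) (max L3 L4)) (max Y0 1), fun L hL t ht => ?_⟩
  have g1 : L1 ≤ L := (((le_max_left _ _).trans (le_max_left _ _)).trans (le_max_left _ _)).trans hL
  have g2 : L2 ≤ L := (((le_max_right _ _).trans (le_max_left _ _)).trans (le_max_left _ _)).trans hL
  have g3 : L3 ≤ L := (((le_max_left _ _).trans (le_max_right _ _)).trans (le_max_left _ _)).trans hL
  have g4 : L4 ≤ L := (((le_max_right _ _).trans (le_max_right _ _)).trans (le_max_left _ _)).trans hL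
  have g5 : Y0 ≤ L := ((le_max_left _ _).trans (le_max_right _ _)).trans hL
  have g6 : 1 ≤ L := ((le_max_right _ _).trans (le_max_right _ _)).trans hL
  have hLr : (1 : ℝ) ≤ L := by exact_mod_cast g6
  have hL0 : (0 : ℝ) < L := by linarith
  have hL3' : 3 * σ' / (κ - 2 * σ') + 1 ≤ L := hL3.trans (by exact_mod_cast g3)
  have hL4' : (26 * Real.log b + 1) / c + 1 ≤ L := hL4.trans (by exact_mod_cast g4)
  have hX0 := XX_pos ht.ok L
  set X : ℝ := XX b t L with hX
  set Y : ℕ := b ^ (2 * L + 3) with hY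
  have hYR : (Y : ℝ) = (b : ℝ) ^ ((2 * (L : ℝ) + 3)) := by
    rw [hY]
    push_cast
    rw [← Real.rpow_natCast]
    push_cast
    rfl
  have hYL : L ≤ Y := by
    have h1 : L < b ^ L := Nat.lt_pow_self (by omega)
    have h2 : b ^ L ≤ b ^ (2 * L + 3) := Nat.pow_le_pow_right (by omega) (by omega)
    omega
  have hY2 : 2 ≤ Y := by
    have h2 : b ^ 1 ≤ b ^ (2 * L + 3) := Nat.pow_le_pow_right (by omega) (by omega)
    rw [pow_one] at h2
    omega
  have hlY : Real.log Y = (2 * (L : ℝ) + 3) * Real.log b := by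
    rw [hYR, Real.log_rpow hb0]
  have hlY0 : 0 < Real.log Y := by rw [hlY]; positivity
  have hlY5 : Real.log Y ≤ 5 * L * Real.log b := by
    rw [hlY]
    apply mul_le_mul_of_nonneg_right _ hlb.le
    linarith
  -- `Y ^ σ' ≤ b ^ (κ L)`
  have hgap : 0 < κ - 2 * σ' := by rw [hκε, hσ']; linarith
  have hYσ : (Y : ℝ) ^ σ' ≤ (b : ℝ) ^ (κ * L) := by
    rw [hYR, ← Real.rpow_mul hb0.le]
    apply Real.rpow_le_rpow_of_exponent_le hb1'
    have h1 : 3 * σ' / (κ - 2 * σ') ≤ L := by linarith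
    rw [div_le_iff₀ hgap] at h1
    nlinarith
  have hdig := hDIG b t L hb4 ht.ok
  have hsv' := hsv Y (g5.trans hYL) (Fin L → ℕ × ℕ) (digs b t L) (pv b L) (fun m hm => (hdig m hm).2.2.1)
  have hrem : ∑ q ∈ (Icc 1 ⌊(Y : ℝ) ^ σ'⌋₊).filter (fun q => q.Coprime (2 * b)),
      |(((digs b t L).filter (fun i => q ∣ pv b L i)).card : ℝ) - (digs b t L).card / q| ≤ X / (L : ℝ) ^ 4 := by
    refine le_trans ?_ (hL1 L g1 t ht)
    have hsub : (Icc 1 ⌊(Y : ℝ) ^ σ'⌋₊).filter (fun q => q.Coprime (2 * b)) ⊆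
        (Icc 1 ⌊(b : ℝ) ^ (κ * L)⌋₊).filter (fun q => q.Coprime (2 * b)) := by
      intro q hq
      rw [mem_filter, mem_Icc] at hq ⊢
      exact ⟨⟨hq.1.1, hq.1.2.trans (Nat.floor_le_floor hYσ)⟩, hq.2⟩
    refine le_trans (sum_le_sum_of_subset_of_nonneg hsub fun _ _ _ => abs_nonneg _) (le_of_eq ?_)
    apply sum_congr rfl
    intro q _
    rw [XX_eq]
    unfold cnt
    congr!
  set W := (digs b t L).filter (fun i => 0 < WW Y (σ / 4) υ lam (lam / υ) (pv b L i)) with hW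
  set B := (digs b t L).filter (fun m => ∃ p : ℕ, p.Coprime (2 * b) ∧ (b : ℝ) ^ ((1 / 4 : ℝ) * L) ≤ p ∧
    (p : ℝ) ≤ (b : ℝ) ^ (κ * L) ∧ p ^ 2 ∣ pv b L m) with hB
  have hBc : (B.card : ℝ) ≤ X / (L : ℝ) ^ 4 := hL2 L g2 t ht
  rw [← XX_eq, ← hX] at hsv'
  have hWc : δ * X / Real.log Y - 5 * Real.log Y * (X / (L : ℝ) ^ 4) ≤ W.card := by
    refine le_trans ?_ hsv'
    rw [XX_eq] at hX
    rw [hX]
    have := mul_le_mul_of_nonneg_left hrem (show 0 ≤ 5 * Real.log Y by positivity)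
    rw [hX] at this
    linarith
  refine ⟨W \ B, ?_, ?_, ?_⟩
  · intro m hm
    rw [Finset.mem_sdiff] at hm
    exact (mem_filter.1 hm.1).1
  · have h1 : (W.card : ℝ) - B.card ≤ ((W \ B).card : ℝ) := by
      have h2 : W.card ≤ (W \ B).card + B.card := by
        have := Finset.le_card_sdiff B W
        omega
      have h3 : (W.card : ℝ) ≤ (W \ B).card + B.card := by exact_mod_cast h2
      linarith
    have h2 : 2 * c * X / L ≤ δ * X / Real.log Y := by
      rw [div_le_div_iff₀ hL0 hlY0]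
      have h3 : 2 * c * X * Real.log Y ≤ 2 * c * X * (5 * L * Real.log b) :=
        mul_le_mul_of_nonneg_left hlY5 (by positivity)
      have h4 : 2 * c * X * (5 * L * Real.log b) = δ * X * L := by
        rw [hc]; field_simp; ring
      linarith
    have h3 : 5 * Real.log Y * (X / (L : ℝ) ^ 4) + X / (L : ℝ) ^ 4 ≤ c * X / L := by
      have e1 : 5 * Real.log Y * (X / (L : ℝ) ^ 4) + X / (L : ℝ) ^ 4 = (5 * Real.log Y + 1) * X / (L : ℝ) ^ 4 := by
        ring
      rw [e1, div_le_div_iff₀ (by positivity) hL0]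
      have e2 : 5 * Real.log Y + 1 ≤ (26 * Real.log b + 1) * L := by
        nlinarith
      have e3 : 26 * Real.log b + 1 ≤ c * L := by
        have : (26 * Real.log b + 1) / c ≤ L := by linarith
        rw [div_le_iff₀ hc0] at this
        linarith
      have e4 : (1 : ℝ) ≤ (L : ℝ) ^ 1 := by simpa using hLr
      calc (5 * Real.log Y + 1) * X * L ≤ ((26 * Real.log b + 1) * L) * X * L := by gcongr
        _ ≤ ((c * L) * L) * X * L := by gcongr
        _ = c * X * (L : ℝ) ^ 3 := by ring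
        _ ≤ c * X * (L : ℝ) ^ 4 := by
            apply mul_le_mul_of_nonneg_left _ (by positivity)
            exact pow_le_pow_right₀ hLr (by norm_num)
    have h4 : 2 * c * X / L = c * X / L + c * X / L := by ring
    linarith
  · intro m hm
    rw [Finset.mem_sdiff, hW, mem_filter] at hm
    obtain ⟨⟨hm1, hm2⟩, hm3⟩ := hm
    obtain ⟨d1, d2, d3, d4⟩ := hdig m hm1
    have hpos : pv b L m ≠ 0 := by
      have : 0 < b ^ (2 * L + 2) := by positivity
      omega
    have hυ1' : υ ≤ 1 := by linarith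
    have hYζ : (b : ℝ) ^ ((L : ℝ) / 4) ≤ (Y : ℝ) ^ (σ / 4) := by
      rw [hYR, ← Real.rpow_mul hb0.le]
      apply Real.rpow_le_rpow_of_exponent_le hb1'
      rw [hσ]
      nlinarith
    have hal := almost Y hY2 (σ / 4) υ lam S 2 hυ1 hυ0 hυ1' hlam (by exact_mod_cast hr) (pv b L m) hpos (by
        have h1 : ((pv b L m : ℕ) : ℝ) ≤ Y := by exact_mod_cast d2.le
        refine h1.trans ?_
        calc (Y : ℝ) = (Y : ℝ) ^ (1 : ℝ) := (Real.rpow_one _).symm
          _ ≤ (Y : ℝ) ^ S := Real.rpow_le_rpow_of_exponent_le (by exact_mod_cast (by omega : 1 ≤ Y)) hS.le)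
      hm2 (by
        intro q hq hqd
        apply hm3
        rw [hB, mem_filter]
        unfold pr at hq
        rw [mem_filter] at hq
        obtain ⟨hq1, hq2, hq3, hq4⟩ := hq
        have hqY : (q : ℝ) < (Y : ℝ) ^ υ := (Pool.Agent.Y882.tt_lt Y q υ hY2 hq2.pos).1 hq4
        have hqζ : (Y : ℝ) ^ (σ / 4) ≤ q := by
          by_contra h
          push Not at h
          exact absurd hq3 (not_le.2 ((Pool.Agent.Y882.tt_lt Y q (σ / 4) hY2 hq2.pos).2 h))
        refine ⟨hm1, q, ?_, ?_, ?_, hqd⟩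
        · exact Nat.Coprime.coprime_dvd_left ((dvd_pow_self q two_ne_zero).trans hqd) d3
        · refine le_trans (le_of_eq ?_) (hYζ.trans hqζ)
          congr 1
          ring
        · refine hqY.le.trans (le_trans ?_ hYσ)
          apply Real.rpow_le_rpow_of_exponent_le _ (by linarith)
          exact_mod_cast (by omega : 1 ≤ Y))
    refine ⟨hal.1, fun p hp hpd => ?_⟩
    have h1 := hal.2 p hp hpd
    have hY1 : (1 : ℝ) ≤ Y := by exact_mod_cast (by omega : 1 ≤ Y)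
    have h2 : (Y : ℝ) ^ (1 / 8 : ℝ) ≤ p := by
      refine le_trans ?_ h1
      apply Real.rpow_le_rpow_of_exponent_le hY1
      rw [hσ]
      linarith
    have h3 : (Y : ℝ) ≤ (p : ℝ) ^ 8 := by
      calc (Y : ℝ) = ((Y : ℝ) ^ (1 / 8 : ℝ)) ^ 8 := by
            rw [← Real.rpow_natCast, ← Real.rpow_mul (by positivity)]
            norm_num
        _ ≤ _ := pow_le_pow_left₀ (by positivity) h2 8
    have h4 : Y ≤ p ^ 8 := by exact_mod_cast h3
    omega

end Pool.Agent.Zk46.NP2
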