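import Pool.Agent.Zk46.NP2.Asm
import Pool.Agent.Zk46.PP.Cnt

/-!
# Near-palindromes with at most two prime factors: from the digit vectors to the tolerances
-/

set_option autoImplicit false

namespace Pool.Agent.Zk46.NP2

open Finset Filter Topology
open Pool.Agent.W89.PW (fr)
open Pool.Agent.Zk46.PP (dg Near)

lemma sum_fr {b : ℕ} (hb : 2 ≤ b) (L : ℕ) : ∀ K : ℕ, K ≤ L →
    ∑ c ∈ range K, (b - 1) * fr b L c + b ^ (L + 2) + b ^ (L + 1 - K) = b ^ (L + K + 2) + b ^ (L + 1) := by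
  obtain ⟨β, rfl⟩ : ∃ β, b = β + 1 := ⟨b - 1, by omega⟩
  intro K
  induction K with
  | zero => intro _; simp
  | succ K ih =>
    intro hK
    have ih' := ih (by omega)
    rw [sum_range_succ]
    have e1 : L + 1 - K = (L - K) + 1 := by omega
    have e2 : L + 1 - (K + 1) = L - K := by omega
    have e3 : (β + 1) ^ (L - K + 1) = (β + 1) ^ (L - K) * (β + 1) := pow_succ _ _
    have e4 : (β + 1) ^ (L + (K + 1) + 2) = (β + 1) ^ (L + K + 2) * (β + 1) := by
      rw [show L + (K + 1) + 2 = (L + K + 2) + 1 by ring, pow_succ]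
    rw [e1, e3] at ih'
    rw [e2, e4]
    rw [show β + 1 - 1 = β by omega] at ih' ⊢
    have e5 : fr (β + 1) L K = (β + 1) ^ (L + K + 2) + (β + 1) ^ (L - K) := rfl
    rw [e5]
    generalize ∑ c ∈ range K, β * fr (β + 1) L c = S at *
    generalize (β + 1) ^ (L - K) = u at *
    generalize (β + 1) ^ (L + K + 2) = v at *
    generalize (β + 1) ^ (L + 2) = x at *
    generalize (β + 1) ^ (L + 1) = y at *
    ring_nf at ih' ⊢
    omega

lemma mem_digs {b : ℕ} {t : ℕ → ℕ} {L : ℕ} {m : Fin L → ℕ × ℕ} :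
    m ∈ digs b t L ↔ ∀ c : Fin L, (m c).1 < sz b t c ∧ (m c).2 < t c := by
  unfold digs
  simp [Fintype.mem_piFinset, mem_product]

lemma pv_lt {b L : ℕ} {t : ℕ → ℕ} (hb : 2 ≤ b) (ht : Ok b t) {m : Fin L → ℕ × ℕ} (hm : m ∈ digs b t L) :
    pv b L m < 2 * b ^ (2 * L + 2) := by
  rw [mem_digs] at hm
  have h1 : ∑ c : Fin L, ((m c).1 * fr b L c + (m c).2 * lo b L c) ≤ ∑ c ∈ range L, (b - 1) * fr b L c := by
    rw [← Fin.sum_univ_eq_sum_range (fun c => (b - 1) * fr b L c) L]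
    apply sum_le_sum
    intro c _
    obtain ⟨h2, h3⟩ := hm c
    have h4 := ht c
    unfold sz at h2
    have h5 : (m c).1 + 2 * (m c).2 ≤ b - 1 := by omega
    have h6 : (m c).1 ≤ b - 1 := by omega
    unfold fr lo
    calc (m c).1 * (b ^ (L + (c : ℕ) + 2) + b ^ (L - (c : ℕ))) + (m c).2 * (2 * b ^ (L - (c : ℕ)))
        = (m c).1 * b ^ (L + (c : ℕ) + 2) + ((m c).1 + 2 * (m c).2) * b ^ (L - (c : ℕ)) := by ring
      _ ≤ (b - 1) * b ^ (L + (c : ℕ) + 2) + (b - 1) * b ^ (L - (c : ℕ)) :=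
          add_le_add (Nat.mul_le_mul_right _ h6) (Nat.mul_le_mul_right _ h5)
      _ = _ := by ring
  have h2 := sum_fr hb L L le_rfl
  rw [show L + L + 2 = 2 * L + 2 by ring, show L + 1 - L = 1 by omega, pow_one] at h2
  have h3 : b ^ (L + 2) = b * b ^ (L + 1) := by rw [← pow_succ']
  have h4 : 2 * b ^ (L + 1) ≤ b ^ (L + 2) := by rw [h3]; exact Nat.mul_le_mul_right _ hb
  unfold pv
  omega

lemma pv_mod {b L : ℕ} (hb : 2 ≤ b) (m : Fin L → ℕ × ℕ) : pv b L m % b = 1 := by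
  have h1 : b ∣ ∑ c : Fin L, ((m c).1 * fr b L c + (m c).2 * lo b L c) := by
    refine dvd_sum fun c _ => dvd_add (Dvd.dvd.mul_left ?_ _) (Dvd.dvd.mul_left ?_ _)
    · unfold fr
      exact dvd_add (dvd_pow_self b (by omega)) (dvd_pow_self b (by have := c.2; omega))
    · unfold lo
      exact Dvd.dvd.mul_left (dvd_pow_self b (by have := c.2; omega)) _
  obtain ⟨k, hk⟩ := h1
  unfold pv
  rw [hk]
  have e : b ^ (2 * L + 2) + b ^ (L + 1) + 1 + b * k = 1 + b * (b ^ (2 * L + 1) + b ^ L + k) := by ring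
  rw [e, Nat.add_mul_mod_self_left, Nat.mod_eq_of_lt (by omega)]

/-- the `t` for the tolerances `w`; the pair number `c` consists of the digits number `L - c` and `L + c + 2` -/
def tt' (b : ℕ) (w : ℕ → ℕ) (L c : ℕ) : ℕ := if c < L then min (w (L - c) / 2 + 1) (b / 4) else 1

lemma tt_ok {b : ℕ} (hb : 4 ≤ b) (w : ℕ → ℕ) (L : ℕ) : Ok b (tt' b w L) := by
  intro c
  unfold tt'
  split_ifs
  · constructor
    · omega
    · have : min (w (L - c) / 2 + 1) (b / 4) ≤ b / 4 := min_le_right _ _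
      omega
  · constructor <;> omega

lemma tt_ge {b : ℕ} (hb : 8 ≤ b) {w : ℕ → ℕ} {L c : ℕ} (hc : c < L) (hw : w (L - c) < b) :
    w (L - c) + 1 ≤ 8 * tt' b w L c := by
  unfold tt'
  rw [if_pos hc]
  rcases le_total (w (L - c) / 2 + 1) (b / 4) with h | h
  · rw [min_eq_left h]; omega
  · rw [min_eq_right h]; omega

/-- the numbers with the tolerances -/
lemma near_mem (hDIG : S_DIG) {b L : ℕ} (hb : 8 ≤ b) (w : ℕ → ℕ) {m : Fin L → ℕ × ℕ}
    (hm : m ∈ digs b (tt' b w L) L) : pv b L m ∈ Near b (L + 1) w := by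
  have hok := tt_ok (show 4 ≤ b by omega) w L
  obtain ⟨d1, d2, d3, d4⟩ := hDIG b _ L (by omega) hok m hm
  have hlt := pv_lt (by omega) hok hm
  have hmod := pv_mod (show 2 ≤ b by omega) m
  unfold Near
  rw [mem_filter, mem_Ico]
  refine ⟨⟨?_, ?_⟩, ?_⟩
  · rw [show 2 * (L + 1) = 2 * L + 2 by ring]; exact d1
  · rw [show 2 * (L + 1) + 1 = 2 * L + 3 by ring]; exact d2
  · intro j hj
    unfold dg
    rcases Nat.eq_zero_or_pos j with h0 | h0
    · subst h0
      have e1 : pv b L m / b ^ 0 % b = 1 := by rw [pow_zero, Nat.div_one]; exact hmod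
      have e2 : pv b L m / b ^ (2 * (L + 1) - 0) % b = 1 := by
        rw [show 2 * (L + 1) - 0 = 2 * L + 2 by omega]
        have : pv b L m / b ^ (2 * L + 2) = 1 := by
          apply Nat.div_eq_of_lt_le
          · rw [one_mul]; exact d1
          · exact hlt
        rw [this, Nat.mod_eq_of_lt (by omega)]
      rw [e1, e2]
      constructor <;> omega
    · have hjL : L - j < L := by omega
      obtain ⟨h1, h2⟩ := d4 ⟨L - j, hjL⟩
      simp only at h1 h2
      rw [show L + (L - j) + 2 = 2 * (L + 1) - j by omega] at h1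
      rw [show L - (L - j) = j by omega] at h2
      rw [h1, h2]
      have h3 := (mem_digs.1 hm ⟨L - j, hjL⟩).2
      have h4 : tt' b w L (L - j) ≤ w j / 2 + 1 := by
        unfold tt'
        rw [if_pos hjL, show L - (L - j) = j by omega]
        exact min_le_left _ _
      simp only at h3
      omega

lemma pv_inj (hDIG : S_DIG) {b L : ℕ} {t : ℕ → ℕ} (hb : 4 ≤ b) (ht : Ok b t) :
    Set.InjOn (pv b L) (digs b t L : Set (Fin L → ℕ × ℕ)) := by
  intro m hm m' hm' h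
  obtain ⟨_, _, _, d4⟩ := hDIG b t L hb ht m hm
  obtain ⟨_, _, _, d4'⟩ := hDIG b t L hb ht m' hm'
  funext c
  obtain ⟨h1, h2⟩ := d4 c
  obtain ⟨h1', h2'⟩ := d4' c
  rw [h] at h1 h2
  have e1 : (m c).1 = (m' c).1 := h1.symm.trans h1'
  have e2 : (m c).1 + 2 * (m c).2 = (m' c).1 + 2 * (m' c).2 := h2.symm.trans h2'
  exact Prod.ext e1 (by omega)

end Pool.Agent.Zk46.NP2
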