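import Pool.Agent.Zk46.NP2.Bri

/-!
# Near-palindromes with at most two prime factors: the theorem for tolerances
-/

set_option autoImplicit false

namespace Pool.Agent.Zk46.NP2

open Finset Filter Topology
open Pool.Agent.W89.PW (fr)
open Pool.Agent.Zk46.PP (dg Near ev_pow)

lemma refl_prod (f : ℕ → ℝ) {J L : ℕ} (hJ : J ≤ L + 1) :
    ∏ c ∈ range J, f (L - c) = ∏ j ∈ Ico (L + 1 - J) (L + 1), f j := by
  have h := Finset.prod_Ico_reflect f 0 (m := J) (n := L) hJ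
  rw [Nat.Ico_zero_eq_range, Nat.sub_zero] at h
  exact h

lemma div_prod (b : ℕ) (w : ℕ → ℕ) (S : Finset ℕ) :
    ∏ j ∈ S, ((b : ℝ) / (w j + 1)) = (b : ℝ) ^ S.card / ∏ j ∈ S, ((w j : ℝ) + 1) := by
  rw [prod_div_distrib, prod_const]

lemma wprod_pos (w : ℕ → ℕ) (S : Finset ℕ) : 0 < ∏ j ∈ S, ((w j : ℝ) + 1) :=
  prod_pos fun j _ => by positivity

/-- the parameters for `ε` -/
lemma params {ε : ℝ} (hε : 0 < ε) (hε1 : ε ≤ 1 / 2) : ∃ b₀ : ℕ, 64 ≤ b₀ ∧ ∀ b : ℕ, b₀ ≤ b →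
    CC b ≤ (b : ℝ) ^ (ε / 8) ∧ 32 ≤ (b : ℝ) ^ (ε / 2) := by
  obtain ⟨x0, hx0⟩ := ev_pow (show 0 < ε / 8 by positivity) 2 (8192 * 4)
  refine ⟨max (max x0 ⌈(32 : ℝ) ^ (2 / ε)⌉₊) 64, le_max_right _ _, fun b hb => ?_⟩
  have h1 : x0 ≤ b := (le_max_left _ _).trans ((le_max_left _ _).trans hb)
  have h2 : ⌈(32 : ℝ) ^ (2 / ε)⌉₊ ≤ b := (le_max_right _ _).trans ((le_max_left _ _).trans hb)
  have h3 : 64 ≤ b := (le_max_right _ _).trans hb
  have hbR : (64 : ℝ) ≤ b := by exact_mod_cast h3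
  constructor
  · refine le_trans ?_ (hx0 b h1)
    unfold CC
    have h4 : 1 ≤ Real.log b := by
      rw [Real.le_log_iff_exp_le (by linarith)]
      have := Real.exp_one_lt_d9
      linarith
    nlinarith
  · have h4 : (32 : ℝ) ^ (2 / ε) ≤ b := (Nat.le_ceil _).trans (by exact_mod_cast h2)
    have h5 : ((32 : ℝ) ^ (2 / ε)) ^ (ε / 2) ≤ (b : ℝ) ^ (ε / 2) :=
      Real.rpow_le_rpow (by positivity) h4 (by positivity)
    rw [← Real.rpow_mul (by norm_num)] at h5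
    have e : 2 / ε * (ε / 2) = 1 := by field_simp
    rwa [e, Real.rpow_one] at h5

open Classical in
/-- the final statement -/
def S_FIN : Prop := ∀ ε : ℝ, 0 < ε → ε ≤ 1 / 2 → ∃ b₀ : ℕ, 64 ≤ b₀ ∧ ∀ b : ℕ, b₀ ≤ b → ∀ K : ℝ, 1 ≤ K → ∃ M₀ : ℕ,
      ∀ M : ℕ, M₀ ≤ M → ∀ w : ℕ → ℕ, (∀ j < M, w j < b) →
      (∀ m ≤ M, ∏ j ∈ Ico (M - m) M, ((b : ℝ) / (w j + 1)) ≤ K * (b : ℝ) ^ ((1 - ε) * m)) →
      (∏ j ∈ range M, ((b : ℝ) / (w j + 1)) ≤ K * (b : ℝ) ^ ((10 / 11 - ε) * M)) →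
      (b : ℝ) ^ ((1 - ε) * M) * ∏ j ∈ range M, ((w j : ℝ) + 1) ≤
        (((Near b M w).filter (fun n => n.primeFactorsList.length ≤ 2 ∧ ∀ p : ℕ, p.Prime → p ∣ n → n < p ^ 8)).card : ℝ)

open Classical in
theorem near_two (hBIG : S_BIG) (hPT : S_PT) (hBV : S_BV) (hSQ : S_SQ) (hDIG : S_DIG) (hSV : S_SV) {ε : ℝ}
    (hε : 0 < ε) (hε1 : ε ≤ 1 / 2) : ∃ b₀ : ℕ, 64 ≤ b₀ ∧ ∀ b : ℕ, b₀ ≤ b → ∀ K : ℝ, 1 ≤ K → ∃ M₀ : ℕ, ∀ M : ℕ, M₀ ≤ M →
      ∀ w : ℕ → ℕ, (∀ j < M, w j < b) →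
      (∀ m ≤ M, ∏ j ∈ Ico (M - m) M, ((b : ℝ) / (w j + 1)) ≤ K * (b : ℝ) ^ ((1 - ε) * m)) →
      (∏ j ∈ range M, ((b : ℝ) / (w j + 1)) ≤ K * (b : ℝ) ^ ((10 / 11 - ε) * M)) →
      (b : ℝ) ^ ((1 - ε) * M) * ∏ j ∈ range M, ((w j : ℝ) + 1) ≤
        (((Near b M w).filter (fun n => n.primeFactorsList.length ≤ 2 ∧ ∀ p : ℕ, p.Prime → p ∣ n → n < p ^ 8)).card : ℝ) := by
  obtain ⟨b₀, hb₀64, hb₀⟩ := params hε hε1
  refine ⟨b₀, hb₀64, fun b hb K hK => ?_⟩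
  obtain ⟨hCC, h32⟩ := hb₀ b hb
  have hb64 : 64 ≤ b := hb₀64.trans hb
  have hbR : (64 : ℝ) ≤ b := by exact_mod_cast hb64
  have hb0 : (0 : ℝ) < b := by linarith
  have hb1 : (1 : ℝ) < b := by linarith
  have hb1' : (1 : ℝ) ≤ b := hb1.le
  have hCC0 : 0 < CC b := by unfold CC; have := Real.log_nonneg hb1'; positivity
  have hKb : 1 ≤ K * b := by nlinarith
  have hP : Par b (ε / 2) (1 / 11 + ε / 2) (12 / 11 + ε / 8) (K * b) := by
    refine ⟨hb64, by positivity, by positivity, by linarith, by positivity, hKb, by linarith, ?_, ?_⟩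
    · calc CC b ^ 2 ≤ ((b : ℝ) ^ (ε / 8)) ^ 2 := pow_le_pow_left₀ hCC0.le hCC 2
        _ = (b : ℝ) ^ (ε / 8 * 2) := by rw [← Real.rpow_natCast, ← Real.rpow_mul hb0.le]; norm_num
        _ ≤ (b : ℝ) ^ (1 : ℝ) := Real.rpow_le_rpow_of_exponent_le hb1' (by linarith)
        _ = b := Real.rpow_one _
    · calc (b : ℝ) ^ (12 / 11 + ε / 8) * CC b ≤ (b : ℝ) ^ (12 / 11 + ε / 8) * (b : ℝ) ^ (ε / 8) :=
            mul_le_mul_of_nonneg_left hCC (by positivity)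
        _ = (b : ℝ) ^ (12 / 11 + ε / 4) := by rw [← Real.rpow_add hb0]; congr 1; ring
        _ < _ := Real.rpow_lt_rpow_of_exponent_lt hb1 (by linarith)
  obtain ⟨c, hc0, L0, hL0⟩ := main hBIG hPT hBV hSQ hDIG hSV hP (by linarith) (by linarith)
  -- growth
  have hgrow : ∀ᶠ L : ℕ in atTop, (L : ℝ) * b ^ 2 / c ≤ (2 : ℝ) ^ L := by
    have h1 := tendsto_pow_const_div_const_pow_of_one_lt 1 (show (1 : ℝ) < 2 by norm_num)
    have h2 := h1.eventually_le_const (show (0 : ℝ) < c / b ^ 2 by positivity)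
    filter_upwards [h2] with L hL
    rw [pow_one, div_le_div_iff₀ (by positivity) (by positivity)] at hL
    rw [div_le_iff₀ hc0]
    linarith
  obtain ⟨L1, hL1⟩ := eventually_atTop.1 hgrow
  refine ⟨max L0 (max L1 1) + 1, fun M hM w hw hcen htot => ?_⟩
  obtain ⟨L, rfl⟩ : ∃ L, M = L + 1 := ⟨M - 1, by omega⟩
  have g0 : L0 ≤ L := (le_max_left _ _).trans (by omega : max L0 (max L1 1) ≤ L)
  have g1 : L1 ≤ L := ((le_max_left _ _).trans (le_max_right _ _)).trans (by omega : max L0 (max L1 1) ≤ L)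
  have g2 : 1 ≤ L := ((le_max_right _ _).trans (le_max_right _ _)).trans (by omega : max L0 (max L1 1) ≤ L)
  have hLr : (0 : ℝ) < L := by exact_mod_cast (by omega : 0 < L)
  set t := tt' b w L with ht
  have hok : Ok b t := tt_ok (by omega) w L
  -- products of the `t`
  have h8 : ∀ J ≤ L, ∏ j ∈ Ico (L + 1 - J) (L + 1), ((w j : ℝ) + 1) ≤ 8 ^ J * ∏ c ∈ range J, (t c : ℝ) := by
    intro J hJ
    rw [← refl_prod (fun j => (w j : ℝ) + 1) (by omega)]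
    have e : (8 : ℝ) ^ J * ∏ c ∈ range J, (t c : ℝ) = ∏ c ∈ range J, (8 * (t c : ℝ)) := by
      rw [prod_mul_distrib, prod_const, card_range]
    rw [e]
    apply Finset.prod_le_prod
    · intro c _; positivity
    · intro c hc
      rw [mem_range] at hc
      have := tt_ge (show 8 ≤ b by omega) (show c < L by omega) (hw (L - c) (by omega))
      rw [← ht] at this
      exact_mod_cast this
  have h8b : ∀ J : ℕ, (8 : ℝ) ^ J ≤ (b : ℝ) ^ (ε / 2 * J) := by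
    intro J
    rw [Real.rpow_mul hb0.le, Real.rpow_natCast]
    exact pow_le_pow_left₀ (by norm_num) (by linarith) J
  have hadm : Adm b (ε / 2) (1 / 11 + ε / 2) (K * b) L t := by
    refine ⟨hok, fun J hJ => ?_, ?_⟩
    · have h1 := hcen J (by omega)
      rw [div_prod, Nat.card_Ico, show L + 1 - (L + 1 - J) = J by omega, div_le_iff₀ (wprod_pos _ _)] at h1
      have h2 := h8 J hJ
      have h3 : (b : ℝ) ^ J = (b : ℝ) ^ (ε * J) * (b : ℝ) ^ ((1 - ε) * J) := by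
        rw [← Real.rpow_add hb0, ← Real.rpow_natCast]
        congr 1
        ring
      have h4 : (b : ℝ) ^ (ε * J) ≤ K * ∏ j ∈ Ico (L + 1 - J) (L + 1), ((w j : ℝ) + 1) := by
        rw [h3] at h1
        have h5 : 0 < (b : ℝ) ^ ((1 - ε) * J) := by positivity
        have h6 : K * (b : ℝ) ^ ((1 - ε) * J) * ∏ j ∈ Ico (L + 1 - J) (L + 1), ((w j : ℝ) + 1) =
          (K * ∏ j ∈ Ico (L + 1 - J) (L + 1), ((w j : ℝ) + 1)) * (b : ℝ) ^ ((1 - ε) * J) := by ring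
        rw [h6] at h1
        exact le_of_mul_le_mul_right h1 h5
      have h5 : (b : ℝ) ^ (ε * J) = (b : ℝ) ^ (ε / 2 * J) * (b : ℝ) ^ (ε / 2 * J) := by
        rw [← Real.rpow_add hb0]; congr 1; ring
      have h6 : (b : ℝ) ^ (ε / 2 * J) * (8 : ℝ) ^ J ≤ (8 : ℝ) ^ J * (K * ∏ c ∈ range J, (t c : ℝ)) := by
        calc (b : ℝ) ^ (ε / 2 * J) * (8 : ℝ) ^ J ≤ (b : ℝ) ^ (ε / 2 * J) * (b : ℝ) ^ (ε / 2 * J) :=
              mul_le_mul_of_nonneg_left (h8b J) (by positivity)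
          _ = (b : ℝ) ^ (ε * J) := h5.symm
          _ ≤ K * ∏ j ∈ Ico (L + 1 - J) (L + 1), ((w j : ℝ) + 1) := h4
          _ ≤ K * (8 ^ J * ∏ c ∈ range J, (t c : ℝ)) := mul_le_mul_of_nonneg_left h2 (by linarith)
          _ = _ := by ring
      have h7 : (b : ℝ) ^ (ε / 2 * J) ≤ K * ∏ c ∈ range J, (t c : ℝ) := by
        rw [mul_comm] at h6
        exact le_of_mul_le_mul_left h6 (by positivity)
      have h9 : 0 ≤ ∏ c ∈ range J, (t c : ℝ) := prod_nonneg fun _ _ => Nat.cast_nonneg _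
      refine h7.trans (mul_le_mul_of_nonneg_right ?_ h9)
      nlinarith
    · have h1 := htot
      rw [div_prod, card_range, div_le_iff₀ (wprod_pos _ _), prod_range_succ'] at h1
      have hsplit : ∏ k ∈ range L, ((w (k + 1) : ℝ) + 1) = ∏ j ∈ Ico (L + 1 - L) (L + 1), ((w j : ℝ) + 1) := by
        rw [show L + 1 - L = 1 by omega, ← Finset.prod_Ico_add' (fun j => ((w j : ℝ) + 1)) 0 L 1,
          Nat.Ico_zero_eq_range]
      rw [hsplit] at h1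
      have hw0 : (w 0 : ℝ) + 1 ≤ b := by exact_mod_cast hw 0 (by omega)
      have h2 := h8 L le_rfl
      set W := ∏ j ∈ Ico (L + 1 - L) (L + 1), ((w j : ℝ) + 1) with hW
      have hW0 : 0 < W := wprod_pos _ _
      have h3 : (b : ℝ) ^ (L + 1) = (b : ℝ) ^ ((1 / 11 + ε) * ((L + 1 : ℕ) : ℝ)) * (b : ℝ) ^ ((10 / 11 - ε) * ((L + 1 : ℕ) : ℝ)) := by
        rw [← Real.rpow_add hb0, ← Real.rpow_natCast]
        congr 1
        ring
      have h4 : (b : ℝ) ^ ((1 / 11 + ε) * ((L + 1 : ℕ) : ℝ)) ≤ K * b * W := by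
        rw [h3] at h1
        have h5 : 0 < (b : ℝ) ^ ((10 / 11 - ε) * ((L + 1 : ℕ) : ℝ)) := by positivity
        have h6 : K * (b : ℝ) ^ ((10 / 11 - ε) * ((L + 1 : ℕ) : ℝ)) * (W * ((w 0 : ℝ) + 1)) ≤
          (K * b * W) * (b : ℝ) ^ ((10 / 11 - ε) * ((L + 1 : ℕ) : ℝ)) := by
          calc K * (b : ℝ) ^ ((10 / 11 - ε) * ((L + 1 : ℕ) : ℝ)) * (W * ((w 0 : ℝ) + 1)) ≤
              K * (b : ℝ) ^ ((10 / 11 - ε) * ((L + 1 : ℕ) : ℝ)) * (W * b) := by gcongr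
            _ = _ := by ring
        exact le_of_mul_le_mul_right (h1.trans h6) h5
      have h5 : (b : ℝ) ^ ((1 / 11 + ε / 2) * L) * (8 : ℝ) ^ L ≤ (8 : ℝ) ^ L * (K * b * ∏ c ∈ range L, (t c : ℝ)) := by
        calc (b : ℝ) ^ ((1 / 11 + ε / 2) * L) * (8 : ℝ) ^ L ≤ (b : ℝ) ^ ((1 / 11 + ε / 2) * L) * (b : ℝ) ^ (ε / 2 * L) :=
              mul_le_mul_of_nonneg_left (h8b L) (by positivity)
          _ = (b : ℝ) ^ ((1 / 11 + ε) * L) := by rw [← Real.rpow_add hb0]; congr 1; ring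
          _ ≤ (b : ℝ) ^ ((1 / 11 + ε) * ((L + 1 : ℕ) : ℝ)) := by
              apply Real.rpow_le_rpow_of_exponent_le hb1'
              apply mul_le_mul_of_nonneg_left _ (by positivity)
              push_cast
              linarith
          _ ≤ K * b * W := h4
          _ ≤ K * b * (8 ^ L * ∏ c ∈ range L, (t c : ℝ)) := mul_le_mul_of_nonneg_left h2 (by positivity)
          _ = _ := by ring
      rw [mul_comm] at h5
      exact le_of_mul_le_mul_left h5 (by positivity)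
  obtain ⟨G, hGs, hGc, hG⟩ := hL0 L g0 t hadm
  -- the count
  have hinj : Set.InjOn (pv b L) (G : Set (Fin L → ℕ × ℕ)) :=
    (pv_inj hDIG (show 4 ≤ b by omega) hok).mono (by exact_mod_cast hGs)
  have hcard : (G.card : ℝ) ≤ (((Near b (L + 1) w).filter
      (fun n => n.primeFactorsList.length ≤ 2 ∧ ∀ p : ℕ, p.Prime → p ∣ n → n < p ^ 8)).card : ℝ) := by
    have h1 : (G.image (pv b L)).card = G.card := card_image_of_injOn hinj
    rw [← h1]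
    have h2 : G.image (pv b L) ⊆ (Near b (L + 1) w).filter
      (fun n => n.primeFactorsList.length ≤ 2 ∧ ∀ p : ℕ, p.Prime → p ∣ n → n < p ^ 8) := by
      intro n hn
      rw [mem_image] at hn
      obtain ⟨m, hm, rfl⟩ := hn
      rw [mem_filter]
      exact ⟨near_mem hDIG (by omega) w (hGs hm), hG m hm⟩
    exact_mod_cast card_le_card h2
  refine le_trans ?_ (hGc.trans hcard)
  -- the size
  have hX : (b / 16 : ℝ) ^ L * ∏ j ∈ Ico (L + 1 - L) (L + 1), ((w j : ℝ) + 1) ≤ XX b t L := by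
    have h1 := h8 L le_rfl
    have h2 : (b / 16 : ℝ) ^ L * (8 ^ L * ∏ c ∈ range L, (t c : ℝ)) ≤ XX b t L := by
      have e : (b / 16 : ℝ) ^ L * (8 ^ L * ∏ c ∈ range L, (t c : ℝ)) = ∏ c ∈ range L, ((b / 2 : ℝ) * t c) := by
        rw [prod_mul_distrib, prod_const, card_range, ← mul_assoc, ← mul_pow]
        congr 2
        ring
      rw [e]
      unfold XX
      apply Finset.prod_le_prod
      · intro c _; positivity
      · intro c _
        apply mul_le_mul_of_nonneg_right _ (Nat.cast_nonneg _)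
        have h3 := hok c
        have h4 : b ≤ 2 * sz b t c := by unfold sz; omega
        have h5 : (b : ℝ) ≤ 2 * sz b t c := by exact_mod_cast h4
        linarith
    exact (mul_le_mul_of_nonneg_left h1 (by positivity)).trans h2
  have hpr : ∏ j ∈ range (L + 1), ((w j : ℝ) + 1) ≤ b * ∏ j ∈ Ico (L + 1 - L) (L + 1), ((w j : ℝ) + 1) := by
    rw [prod_range_succ', show L + 1 - L = 1 by omega]
    have e : ∏ k ∈ range L, ((w (k + 1) : ℝ) + 1) = ∏ j ∈ Ico 1 (L + 1), ((w j : ℝ) + 1) := by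
      rw [← Nat.Ico_zero_eq_range, Finset.prod_Ico_add' (fun j => ((w j : ℝ) + 1)) 0 L 1, zero_add]
    rw [e, mul_comm]
    apply mul_le_mul_of_nonneg_right _ (wprod_pos _ _).le
    exact_mod_cast hw 0 (by omega)
  set W := ∏ j ∈ Ico (L + 1 - L) (L + 1), ((w j : ℝ) + 1) with hW
  have hW0 : 0 < W := wprod_pos _ _
  have hg := hL1 L g1
  rw [div_le_iff₀ hc0] at hg
  have h16 : (b : ℝ) ^ ((1 - ε) * L) * 2 ^ L ≤ (b / 16 : ℝ) ^ L := by
    have h1 : (b : ℝ) ^ ((1 - ε) * L) = ((b : ℝ) ^ (1 - ε)) ^ L := by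
      rw [Real.rpow_mul hb0.le, Real.rpow_natCast]
    rw [h1, ← mul_pow]
    apply pow_le_pow_left₀ (by positivity)
    have h2 : (b : ℝ) ^ (1 - ε) * (b : ℝ) ^ ε = b := by
      rw [← Real.rpow_add hb0]
      have : 1 - ε + ε = 1 := by ring
      rw [this, Real.rpow_one]
    have h3 : (32 : ℝ) ≤ (b : ℝ) ^ ε := by
      refine h32.trans (Real.rpow_le_rpow_of_exponent_le hb1' (by linarith))
    have h4 : 0 < (b : ℝ) ^ (1 - ε) := by positivity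
    rw [le_div_iff₀ (by norm_num)]
    calc (b : ℝ) ^ (1 - ε) * 2 * 16 = (b : ℝ) ^ (1 - ε) * 32 := by ring
      _ ≤ (b : ℝ) ^ (1 - ε) * (b : ℝ) ^ ε := mul_le_mul_of_nonneg_left h3 h4.le
      _ = b := h2
  have hexp : (b : ℝ) ^ ((1 - ε) * ((L + 1 : ℕ) : ℝ)) ≤ (b : ℝ) ^ ((1 - ε) * L) * b := by
    calc (b : ℝ) ^ ((1 - ε) * ((L + 1 : ℕ) : ℝ)) ≤ (b : ℝ) ^ ((1 - ε) * L + 1) := by
          apply Real.rpow_le_rpow_of_exponent_le hb1'
          push_cast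
          nlinarith
      _ = _ := by rw [Real.rpow_add hb0, Real.rpow_one]
  rw [le_div_iff₀ hLr]
  calc ((b : ℝ) ^ ((1 - ε) * ((L + 1 : ℕ) : ℝ)) * ∏ j ∈ range (L + 1), ((w j : ℝ) + 1)) * L ≤
      ((b : ℝ) ^ ((1 - ε) * L) * b) * (b * W) * L := by
        apply mul_le_mul_of_nonneg_right _ hLr.le
        exact mul_le_mul hexp hpr (wprod_pos _ _).le (by positivity)
    _ = (b : ℝ) ^ ((1 - ε) * L) * W * (L * b ^ 2) := by ring
    _ ≤ (b : ℝ) ^ ((1 - ε) * L) * W * (2 ^ L * c) := mul_le_mul_of_nonneg_left hg (by positivity)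
    _ = c * (((b : ℝ) ^ ((1 - ε) * L) * 2 ^ L) * W) := by ring
    _ ≤ c * ((b / 16 : ℝ) ^ L * W) := by gcongr
    _ ≤ c * XX b t L := mul_le_mul_of_nonneg_left hX hc0.le

theorem fin_of (hBIG : S_BIG) (hPT : S_PT) (hBV : S_BV) (hSQ : S_SQ) (hDIG : S_DIG) (hSV : S_SV) : S_FIN :=
  fun _ h1 h2 => near_two hBIG hPT hBV hSQ hDIG hSV h1 h2

end Pool.Agent.Zk46.NP2
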